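import Pool.Agent.R280.XLogX
import Pool.Agent.R280.QuasiLin

/-!
# The space `φ(X) + M` need not be a Banach space (MP_25e654_an, Q1: no)

Let `X = ℓ_1`, `Y = ℓ_1 ⊕ ℓ_1`, `M = {((2^{-i} m_i), 0) : m ∈ ℓ_1}` and
`φ(x) = ((2^{-i} x_i log |x_i|), x)`. Suppose that `V = φ(X) + M` has a complete norm finer than the
topology of `Y`. If the norms of `u_i = (0, e_i) ∈ V` are bounded for the indices `i` in an infinite
set `I`, then `(0, a) ∈ V` for all `a ∈ ℓ_1(I)`, and so `∑ |a_i log |a_i|| < ∞`, a contradiction.
Otherwise there are indices with `‖u_{i_k}‖ ≥ 4^k`, and the linear map `t ↦ (0, ∑ t_k 2^{-k} e_{i_k})`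
from `ℓ_1` to `V` is bounded by the closed graph theorem, a contradiction.
-/

set_option autoImplicit false

open Set Topology Filter Pool.Agent.R280.XLogX Pool.Agent.R280.QuasiLin

universe w

namespace Pool.Agent.Results.MP_25e654_an.NoBanachStructure

/-- the map -/
noncomputable def Ph (x : L1) : L1 × L1 := (phi x, x)

/-- the inclusion of `M` -/
noncomputable def J : L1 →L[ℝ] L1 × L1 := (ContinuousLinearMap.inl ℝ L1 L1).comp jmap

lemma J_apply (m : L1) : J m = (jmap m, 0) := rfl

lemma isQuasiLinear : IsQuasiLinear J Ph where
  completeX := inferInstance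
  separableX := inferInstance
  completeY := inferInstance
  separableY := inferInstance
  completeM := inferInstance
  injective := by
    intro x y hxy
    rw [J_apply, J_apply] at hxy
    exact jmap_injective (congrArg Prod.fst hxy)
  norm_le := by
    intro m
    rw [J_apply, Prod.norm_def, norm_zero, max_eq_left (norm_nonneg _)]
    exact norm_jmap_le m
  borel := by
    borelize L1
    have : SecondCountableTopology L1 := UniformSpace.secondCountable_of_separable L1
    have h1 : Measurable Ph := measurable_phi.prodMk measurable_id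
    rwa [Prod.borelSpace.measurable_eq] at h1
  linear_mod := by
    intro a b x y
    obtain ⟨m, hm⟩ := phi_quasi a b x y
    refine ⟨m, ?_⟩
    rw [J_apply, ← hm]
    refine Prod.ext rfl ?_
    show a • x + b • y - (a • x + b • y) = 0
    rw [sub_self]

/-- There are data `X`, `Y`, `M`, `φ` as in the problem for which the linear subspace
`V = φ(X) + M` of `Y` has no complete norm whose topology is finer than that of `Y`: there are no
Banach space `B` and injective bounded linear map `ι : B → Y` with range `V`. -/
theorem result : ∃ (X Y M : Type) (_ : NormedAddCommGroup X) (_ : NormedSpace ℝ X)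
    (_ : NormedAddCommGroup Y) (_ : NormedSpace ℝ Y) (_ : NormedAddCommGroup M)
    (_ : NormedSpace ℝ M) (j : M →L[ℝ] Y) (φ : X → Y), IsQuasiLinear j φ ∧
      ¬ ∃ (B : Type w) (_ : NormedAddCommGroup B) (_ : NormedSpace ℝ B) (_ : CompleteSpace B)
        (ι : B →L[ℝ] Y), Function.Injective ι ∧
          ∀ y : Y, (∃ v : B, ι v = y) ↔ ∃ (x : X) (m : M), y = φ x + j m := by
  classical
  refine ⟨L1, L1 × L1, L1, inferInstance, inferInstance, inferInstance, inferInstance,
    inferInstance, inferInstance, J, Ph, isQuasiLinear, ?_⟩
  rintro ⟨B, _, _, _, ι, hinj, hrange⟩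
  -- membership criterion
  have hmem : ∀ a : L1, (Summable fun i => |h (a i)|) → ∃ v : B, ι v = (0, a) := by
    intro a ha
    rw [hrange]
    obtain ⟨m, hm⟩ := exists_jmap (y := phi a) (f := fun i => h (a i)) ha fun i => phi_apply a i
    refine ⟨a, -m, ?_⟩
    rw [J_apply, map_neg, ← hm]
    refine Prod.ext ?_ ?_
    · show (0 : L1) = phi a + -phi a
      rw [add_neg_cancel]
    · show a = a + 0
      rw [add_zero]
  have hmem' : ∀ a : L1, (∃ v : B, ι v = (0, a)) → Summable fun i => |h (a i)| := by
    intro a hv
    rw [hrange] at hv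
    obtain ⟨x, m, hxm⟩ := hv
    have h1 : a = x := by
      have := congrArg Prod.snd hxm
      rw [J_apply] at this
      simpa [Ph] using this
    have h2 : (0 : L1) = phi x + jmap m := congrArg Prod.fst hxm
    have h3 : ∀ i, h (a i) = -m i := by
      intro i
      have h4 : (0 : ℝ) = (1 / 2 : ℝ) ^ i * h (x i) + (1 / 2 : ℝ) ^ i * m i := by
        have h5 : (0 : L1) i = (phi x + jmap m) i := by rw [← h2]
        exact h5
      rw [h1]
      have h5 : (1 / 2 : ℝ) ^ i * (h (x i) + m i) = 0 := by rw [mul_add]; exact h4.symm
      rcases mul_eq_zero.1 h5 with h6 | h6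
      · exact absurd h6 (by positivity)
      · linarith
    simp only [h3, abs_neg]
    exact Pool.Agent.R280.XLogX.summable m
  -- unit vectors
  have hunit : ∀ i : ℕ, Summable fun k => |h ((lp.single (E := fun _ : ℕ => ℝ) 1 i (1 : ℝ)) k)| := by
    intro i
    refine summable_of_ne_finset_zero (s := {i}) fun k hk => ?_
    rw [Finset.mem_singleton] at hk
    rw [lp.single_apply_ne _ _ _ hk, h_zero, abs_zero]
  choose u hu using fun i => hmem _ (hunit i)
  have hsingle : ∀ (i k : ℕ), (lp.single (E := fun _ : ℕ => ℝ) 1 i (1 : ℝ)) k =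
      if k = i then 1 else 0 := by
    intro i k
    by_cases hk : k = i
    · subst hk; rw [lp.single_apply_self, if_pos rfl]
    · rw [lp.single_apply_ne _ _ _ hk, if_neg hk]
  by_cases hcase : ∃ C : ℝ, {i | ‖u i‖ ≤ C}.Infinite
  · -- bounded along an infinite set
    obtain ⟨C, hC⟩ := hcase
    set e : ℕ → ℕ := fun k => (hC.natEmbedding _ k : ℕ) with he
    have heinj : Function.Injective e := fun a b hab =>
      (hC.natEmbedding _).injective (Subtype.ext hab)
    have heC : ∀ k, ‖u (e k)‖ ≤ C := fun k => (hC.natEmbedding _ k).2
    have hs : Summable fun k => bad k • u (e k) := by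
      refine Summable.of_norm_bounded (summable_bad.mul_right C) fun k => ?_
      rw [norm_smul, Real.norm_of_nonneg (bad_nonneg k)]
      exact mul_le_mul_of_nonneg_left (heC k) (bad_nonneg k)
    set v := ∑' k, bad k • u (e k) with hv
    have h1 : HasSum (fun k => bad k • ((0 : L1), lp.single (E := fun _ : ℕ => ℝ) 1 (e k) (1 : ℝ)))
        (ι v) := by
      have := hs.hasSum.mapL ι
      simp only [map_smul, hu] at this
      exact this
    set a : L1 := (ι v).2 with ha
    have hv0 : ι v = (0, a) := by
      refine Prod.ext ?_ rfl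
      have h2 := h1.mapL (ContinuousLinearMap.fst ℝ L1 L1)
      simp only [map_smul, ContinuousLinearMap.coe_fst', smul_zero] at h2
      exact h2.unique hasSum_zero
    have h3 := hmem' a ⟨v, hv0⟩
    have h4 : ∀ k, a (e k) = bad k := by
      intro k
      have h2 := h1.mapL ((coord (e k)).comp (ContinuousLinearMap.snd ℝ L1 L1))
      simp only [map_smul, ContinuousLinearMap.comp_apply, ContinuousLinearMap.coe_snd',
        coord_apply, hsingle, smul_eq_mul] at h2
      have h5 : HasSum (fun l => bad l * if e k = e l then (1 : ℝ) else 0) (bad k) := by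
        have := hasSum_single (f := fun l => bad l * if e k = e l then (1 : ℝ) else 0) k
          (fun l hl => by rw [if_neg (fun h => hl (heinj h).symm), mul_zero])
        simpa using this
      exact h2.unique h5
    have h5 := h3.comp_injective heinj
    have h6 : ((fun i => |h (a i)|) ∘ e) = fun k => |h (bad k)| := by
      funext k
      simp only [Function.comp_apply, h4]
    rw [h6] at h5
    exact not_summable_h_bad h5
  · -- unbounded
    push Not at hcase
    obtain ⟨e, hemono, heb⟩ : ∃ e : ℕ → ℕ, StrictMono e ∧ ∀ k, (4 : ℝ) ^ k < ‖u (e k)‖ := by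
      refine Filter.extraction_forall_of_eventually' (P := fun k i => (4 : ℝ) ^ k < ‖u i‖)
        (fun k => ?_)
      obtain ⟨N, hN⟩ := (hcase ((4 : ℝ) ^ k)).bddAbove
      refine ⟨N + 1, fun i hi => ?_⟩
      by_contra hcon
      push Not at hcon
      have := hN hcon
      omega
    have heinj := hemono.injective
    -- the embedding of `ℓ_1`
    set g : L1 → ℕ → ℝ := fun t => Function.extend e (fun k => (1 / 2 : ℝ) ^ k * t k) 0 with hg
    have hg1 : ∀ t k, g t (e k) = (1 / 2 : ℝ) ^ k * t k := fun t k => heinj.extend_apply _ _ _
    have hg2 : ∀ t i, i ∉ Set.range e → g t i = 0 := by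
      intro t i hi
      rw [hg]
      simp only
      rw [Function.extend_apply']
      · rfl
      · rintro ⟨k, hk⟩; exact hi ⟨k, hk⟩
    have hgs : ∀ t, Summable fun i => |g t i| := by
      intro t
      rw [← heinj.summable_iff]
      · have : ((fun i => |g t i|) ∘ e) = fun k => |(1 / 2 : ℝ) ^ k * t k| := by
          funext k; simp only [Function.comp_apply, hg1]
        rw [this]
        refine Summable.of_nonneg_of_le (fun i => abs_nonneg _) (fun i => ?_)
          (Pool.Agent.R280.XLogX.summable t)
        rw [abs_mul, abs_of_nonneg (by positivity)]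
        exact mul_le_of_le_one_left (abs_nonneg _) (pow_le_one₀ (by norm_num) (by norm_num))
      · intro i hi
        rw [hg2 t i hi, abs_zero]
    set A : L1 → L1 := fun t => mk (g t) (hgs t) with hA
    have hcases : ∀ {P : ℕ → Prop}, (∀ k, P (e k)) → (∀ i, i ∉ Set.range e → P i) → ∀ i, P i := by
      intro P h1 h2 i
      by_cases hi : i ∈ Set.range e
      · obtain ⟨k, rfl⟩ := hi; exact h1 k
      · exact h2 i hi
    have hAadd : ∀ s t, A (s + t) = A s + A t := by
      intro s t
      refine lp.ext (funext ?_)
      refine hcases (fun k => ?_) (fun i hi => ?_)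
      · show g (s + t) (e k) = g s (e k) + g t (e k)
        rw [hg1, hg1, hg1, lp.coeFn_add, Pi.add_apply, mul_add]
      · show g (s + t) i = g s i + g t i
        rw [hg2 _ i hi, hg2 _ i hi, hg2 _ i hi, add_zero]
    have hAsmul : ∀ (c : ℝ) t, A (c • t) = c • A t := by
      intro c t
      refine lp.ext (funext ?_)
      refine hcases (fun k => ?_) (fun i hi => ?_)
      · show g (c • t) (e k) = c * g t (e k)
        rw [hg1, hg1, lp.coeFn_smul, Pi.smul_apply, smul_eq_mul]
        ring
      · show g (c • t) i = c * g t i
        rw [hg2 _ i hi, hg2 _ i hi, mul_zero]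
    have hAh : ∀ t, Summable fun i => |h ((A t) i)| := by
      intro t
      rw [← heinj.summable_iff]
      · have : ((fun i => |h ((A t) i)|) ∘ e) = fun k => |h ((1 / 2 : ℝ) ^ k * t k)| := by
          funext k
          simp only [Function.comp_apply]
          rw [← hg1]; rfl
        rw [this]
        have hb : ∀ k, |h ((1 / 2 : ℝ) ^ k * t k)| ≤ |(1 / 2 : ℝ) ^ k * h (t k)| + |t k| := by
          intro k
          rw [h_smul]
          refine (abs_add_le _ _).trans (add_le_add le_rfl ?_)
          rw [abs_mul]
          refine mul_le_of_le_one_left (abs_nonneg _) (abs_h_le_one ?_)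
          rw [abs_of_nonneg (by positivity)]
          exact pow_le_one₀ (by norm_num) (by norm_num)
        exact Summable.of_nonneg_of_le (fun i => abs_nonneg _) hb
          ((phi_summable t).add (Pool.Agent.R280.XLogX.summable t))
      · intro i hi
        have : (A t) i = 0 := hg2 t i hi
        rw [this, h_zero, abs_zero]
    choose S hS using fun t => hmem (A t) (hAh t)
    let T : L1 →ₗ[ℝ] B :=
      { toFun := S
        map_add' := by
          intro s t
          apply hinj
          rw [map_add, hS, hS, hS, hAadd]
          refine Prod.ext ?_ rfl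
          show (0 : L1) = 0 + 0
          rw [add_zero]
        map_smul' := by
          intro c t
          apply hinj
          rw [RingHom.id_apply, map_smul, hS, hS, hAsmul]
          refine Prod.ext ?_ rfl
          show (0 : L1) = c • (0 : L1)
          rw [smul_zero] }
    have hT : ∀ t, ι (T t) = (0, A t) := hS
    have hcont : Continuous T := by
      refine T.continuous_of_seq_closed_graph ?_
      intro x t y hx hy
      apply hinj
      have h1 : Tendsto (fun n => ι (T (x n))) atTop (𝓝 (ι y)) := (ι.continuous.tendsto y).comp hy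
      rw [hT]
      refine Prod.ext ?_ ?_
      · have h2 := (continuous_fst.tendsto (ι y)).comp h1
        have h3 : (Prod.fst ∘ fun n => ι (T (x n))) = fun _ => (0 : L1) := by
          funext n
          simp only [Function.comp_apply, hT]
        rw [h3] at h2
        exact (tendsto_nhds_unique h2 tendsto_const_nhds)
      · refine lp.ext (funext fun i => ?_)
        have h2 := (((coord i).continuous.comp continuous_snd).tendsto (ι y)).comp h1
        have h3 : ((coord i ∘ Prod.snd) ∘ fun n => ι (T (x n))) = fun n => g (x n) i := by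
          funext n
          simp only [Function.comp_apply, hT]
          rfl
        rw [h3] at h2
        have h4 : Tendsto (fun n => g (x n) i) atTop (𝓝 (g t i)) := by
          by_cases hi : i ∈ Set.range e
          · obtain ⟨k, rfl⟩ := hi
            simp only [hg1]
            exact (((coord k).continuous.tendsto t).comp hx).const_mul _
          · simp only [hg2 _ i hi]
            exact tendsto_const_nhds
        exact tendsto_nhds_unique h2 h4
    let T' : L1 →L[ℝ] B := ⟨T, hcont⟩
    have hTe : ∀ k, T' (lp.single (E := fun _ : ℕ => ℝ) 1 k (1 : ℝ)) =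
        (1 / 2 : ℝ) ^ k • u (e k) := by
      intro k
      apply hinj
      show ι (T _) = _
      rw [hT, map_smul, hu]
      refine Prod.ext ?_ ?_
      · show (0 : L1) = (1 / 2 : ℝ) ^ k • (0 : L1)
        rw [smul_zero]
      · refine lp.ext (funext ?_)
        refine hcases (fun l => ?_) (fun i hi => ?_)
        · show g _ (e l) = (1 / 2 : ℝ) ^ k * _
          rw [hg1, hsingle, hsingle]
          by_cases hl : l = k
          · subst hl; rw [if_pos rfl, if_pos rfl]
          · rw [if_neg hl, if_neg (fun h => hl (heinj h)), mul_zero, mul_zero]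
        · show g _ i = (1 / 2 : ℝ) ^ k * _
          rw [hg2 _ i hi, hsingle, if_neg (fun h => hi ⟨k, h.symm⟩), mul_zero]
    obtain ⟨k, hk⟩ := pow_unbounded_of_one_lt ‖T'‖ (by norm_num : (1 : ℝ) < 2)
    have h1 := T'.le_opNorm (lp.single (E := fun _ : ℕ => ℝ) 1 k (1 : ℝ))
    rw [hTe, norm_smul, lp.norm_single (by norm_num), norm_one, mul_one,
      Real.norm_of_nonneg (by positivity)] at h1
    have h2 : (1 / 2 : ℝ) ^ k * 4 ^ k ≤ (1 / 2 : ℝ) ^ k * ‖u (e k)‖ :=
      mul_le_mul_of_nonneg_left (heb k).le (by positivity)
    rw [← mul_pow] at h2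
    norm_num at h2
    norm_num at h1
    linarith

end Pool.Agent.Results.MP_25e654_an.NoBanachStructure
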